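import Pool.Agent.Helper14.TT.StG

/-!
# Project TT, module C5: the composite conductor
-/

set_option autoImplicit false

namespace Pool.Agent.Helper22.TT

open Pool.Agent.Helper14.TT Pool.Agent.Helper14.CV

/-- The Jacobi symbol modulo `2` is the indicator function of the coprime residues. -/
private lemma jac (D a : ℕ) (hD : D ≠ 0) (v : ZMod 2) :
    jacobiSym (a : ℤ) D • v = if Nat.Coprime a D then v else 0 := by
  have : NeZero D := ⟨hD⟩
  by_cases h : Nat.Coprime a D
  · rw [if_pos h]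
    have hg : Int.gcd (a : ℤ) (D : ℤ) = 1 := by
      rw [Int.gcd_natCast_natCast]
      exact h
    rcases jacobiSym.eq_one_or_neg_one hg with h | h
    · rw [h, one_smul]
    · rw [h, neg_smul, one_smul, CharTwo.neg_eq]
  · rw [if_neg h]
    have hg : jacobiSym (a : ℤ) D = 0 := by
      rw [jacobiSym.eq_zero_iff_not_coprime, Int.gcd_natCast_natCast]
      exact h
    rw [hg, zero_smul]

/-- The twisted sum modulo `2`: the constant does not matter. -/
private lemma twist (D : ℕ) (hD : 2 < D) (f : ℕ → ZMod 2) (c : ZMod 2) :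
    ∑ a ∈ Finset.range D, jacobiSym (a : ℤ) D • (f a - c) =
      ∑ a ∈ Finset.range D, if Nat.Coprime a D then f a else 0 := by
  have h1 : ∀ a ∈ Finset.range D, jacobiSym (a : ℤ) D • (f a - c) =
      (if Nat.Coprime a D then f a else 0) - (if Nat.Coprime a D then c else 0) := by
    intro a _
    rw [jac D a (by omega)]
    split_ifs <;> simp
  rw [Finset.sum_congr rfl h1, Finset.sum_sub_distrib]
  have h2 : ∑ a ∈ Finset.range D, (if Nat.Coprime a D then c else 0) = 0 := by
    rw [← Finset.sum_filter, Finset.sum_const]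
    have h3 : ((Finset.range D).filter fun a => Nat.Coprime a D).card = Nat.totient D := by
      rw [Nat.totient_eq_card_coprime]
      congr 1
      ext a
      simp only [Finset.mem_filter, Nat.coprime_comm]
    rw [h3]
    obtain ⟨k, hk⟩ := Nat.totient_even hD
    rw [hk, add_nsmul, ← two_nsmul, nsmul_eq_mul]
    have : ((2 : ℕ) : ZMod 2) = 0 := rfl
    rw [this, zero_mul]
  rw [h2, sub_zero]

/-- The sum over the multiples of `5`. -/
private lemma sum_mult5 (n : ℕ) (h : ℕ → ZMod 2) :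
    ∑ b ∈ Finset.range (5 * n), (if 5 ∣ b then h b else 0) = ∑ b ∈ Finset.range n, h (5 * b) := by
  induction n with
  | zero => simp
  | succ n ih =>
    rw [Finset.sum_range_succ, ← ih, show 5 * (n + 1) = 5 * n + 1 + 1 + 1 + 1 + 1 by ring]
    simp only [Finset.sum_range_succ]
    have h0 : 5 ∣ 5 * n := dvd_mul_right _ _
    have h1 : ¬ 5 ∣ 5 * n + 1 := by omega
    have h2 : ¬ 5 ∣ 5 * n + 1 + 1 := by omega
    have h3 : ¬ 5 ∣ 5 * n + 1 + 1 + 1 := by omega
    have h4 : ¬ 5 ∣ 5 * n + 1 + 1 + 1 + 1 := by omega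
    rw [if_pos h0, if_neg h1, if_neg h2, if_neg h3, if_neg h4]
    simp

/-- The sum over the residues `a + j l`. -/
private lemma sum_blocks (l : ℕ) (h : ℕ → ZMod 2) :
    ∑ a ∈ Finset.range l, ∑ j ∈ Finset.range 5, h (a + j * l) =
      ∑ b ∈ Finset.range (5 * l), h b := by
  rw [show 5 * l = l + l + l + l + l by ring]
  simp only [Finset.sum_range_add]
  rw [← Finset.sum_add_distrib, ← Finset.sum_add_distrib, ← Finset.sum_add_distrib,
    ← Finset.sum_add_distrib]
  refine Finset.sum_congr rfl fun a _ => ?_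
  simp only [Finset.sum_range_succ, Finset.sum_range_zero, zero_add]
  congr 1
  · congr 1
    · congr 1
      · congr 1
        · congr 1
          ring
        · congr 1
          ring
      · congr 1
        ring
    · congr 1
      ring
  · congr 1
    ring

/-- Multiplication by `5` permutes the residues modulo `l`. -/
private lemma sum_perm (l : ℕ) (hl : Nat.Coprime l 5) (hl0 : 0 < l) (F : ℕ → ZMod 2) :
    ∑ a ∈ Finset.range l, F (5 * a % l) = ∑ a ∈ Finset.range l, F a := by
  have hinj : Set.InjOn (fun a => 5 * a % l) (Finset.range l : Set ℕ) := by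
    intro a ha b hb hab
    have ha' := Finset.mem_range.1 (Finset.mem_coe.1 ha)
    have hb' := Finset.mem_range.1 (Finset.mem_coe.1 hb)
    have h1 : 5 * a ≡ 5 * b [MOD l] := hab
    have h2 : a ≡ b [MOD l] := Nat.ModEq.cancel_left_of_coprime hl h1
    have h3 : a % l = b % l := h2
    rwa [Nat.mod_eq_of_lt ha', Nat.mod_eq_of_lt hb'] at h3
  have himg : (Finset.range l).image (fun a => 5 * a % l) = Finset.range l := by
    apply Finset.eq_of_subset_of_card_le
    · intro b hb
      obtain ⟨a, _, rfl⟩ := Finset.mem_image.1 hb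
      exact Finset.mem_range.2 (Nat.mod_lt _ hl0)
    · rw [Finset.card_image_of_injOn hinj]
  conv_rhs => rw [← himg]
  rw [Finset.sum_image hinj]

theorem hC5 : C5 := by
  intro l r s G hl hl8 hG
  have hHom := hG.1
  -- the translation
  have hshift : ∀ p q : ℤ, (p ≠ 0 ∨ q ≠ 0) → G (p + 2 ^ (r + 1) * q) q = G p q := by
    obtain ⟨k, hk⟩ := hG.2 1 (2 ^ (r + 1)) 0 1 (by ring) dvd_rfl (dvd_zero _)
    have h1 := hk 1 0 (Or.inl one_ne_zero)
    simp only [act] at h1 hk
    have h2 : k = 0 := by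
      have e1 : (1 * 1 + 2 ^ (r + 1) * 0 : ℤ) = 1 := by ring
      have e2 : (0 * 1 + 1 * 0 : ℤ) = 0 := by ring
      rw [e1, e2] at h1
      exact (left_eq_add.1 h1)
    intro p q hpq
    have h3 := hk p q hpq
    rw [h2, add_zero] at h3
    rw [← h3]
    congr 1 <;> ring
  have hl2 : 2 < l := by omega
  have hl0 : (l : ℤ) ≠ 0 := by
    have : 0 < l := by omega
    exact_mod_cast this.ne'
  have hshiftn : ∀ (n : ℕ) (p : ℤ), G (p + 2 ^ (r + 1) * l * n) l = G p l := by
    intro n
    induction n with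
    | zero => intro p; simp
    | succ n ih =>
      intro p
      have e : (p + 2 ^ (r + 1) * l * ((n + 1 : ℕ) : ℤ) : ℤ) =
          (p + 2 ^ (r + 1) * l * n) + 2 ^ (r + 1) * l := by
        push_cast
        ring
      rw [e, hshift _ _ (Or.inr hl0), ih]
  have hcop5 : Nat.Coprime l 5 := by
    rw [Nat.coprime_primes hl (by norm_num)]
    omega
  unfold eXb
  rw [twist (5 * l) (by omega) (fun a => G (2 ^ (r + 1) * (a : ℤ)) ((5 * l : ℕ) : ℤ)) (G 1 0),
    twist l hl2 (fun a => Tl 5 (2 ^ (r + 1)) G (2 ^ (r + 1) * (a : ℤ)) (l : ℤ))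
      (Tl 5 (2 ^ (r + 1)) G 1 0)]
  -- the function on the residues modulo `5 l`
  set g : ℕ → ZMod 2 := fun b => G (2 ^ (r + 1) * (b : ℤ)) ((5 * l : ℕ) : ℤ) with hg
  set f : ℕ → ZMod 2 := fun b => G (2 ^ (r + 1) * (b : ℤ)) (l : ℤ) with hf
  have hTl : ∀ a : ℕ, Tl 5 (2 ^ (r + 1)) G (2 ^ (r + 1) * (a : ℤ)) (l : ℤ) =
      f (5 * a % l) + ∑ j ∈ Finset.range 5, g (a + j * l) := by
    intro a
    unfold Tl
    congr 1
    · rw [hf]
      have e := hshiftn (5 * a / l) (2 ^ (r + 1) * ((5 * a % l : ℕ) : ℤ))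
      show _ = G (2 ^ (r + 1) * ((5 * a % l : ℕ) : ℤ)) (l : ℤ)
      rw [← e]
      congr 1
      have h1 : ((5 * a : ℕ) : ℤ) = ((5 * a % l : ℕ) : ℤ) + (l : ℤ) * ((5 * a / l : ℕ) : ℤ) := by
        exact_mod_cast (Nat.mod_add_div (5 * a) l).symm
      have h2 : ((5 : ℕ) : ℤ) * (2 ^ (r + 1) * (a : ℤ)) = 2 ^ (r + 1) * ((5 * a : ℕ) : ℤ) := by
        push_cast
        ring
      rw [h2, h1]
      ring
    · refine Finset.sum_congr rfl fun j _ => ?_
      rw [hg]
      show _ = G (2 ^ (r + 1) * ((a + j * l : ℕ) : ℤ)) ((5 * l : ℕ) : ℤ)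
      congr 1
      · push_cast
        ring
  have h1 : ∀ a ∈ Finset.range l, (if Nat.Coprime a l then
      Tl 5 (2 ^ (r + 1)) G (2 ^ (r + 1) * (a : ℤ)) (l : ℤ) else 0) =
      (if Nat.Coprime (5 * a % l) l then f (5 * a % l) else 0) +
        ∑ j ∈ Finset.range 5, (if Nat.Coprime (a + j * l) l then g (a + j * l) else 0) := by
    intro a _
    have c1 : Nat.Coprime (5 * a % l) l ↔ Nat.Coprime a l := by
      have : Nat.Coprime (5 * a % l) l ↔ Nat.Coprime (5 * a) l := by
        unfold Nat.Coprime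
        rw [(Nat.mod_modEq (5 * a) l).gcd_eq]
      rw [this, Nat.coprime_mul_iff_left]
      exact ⟨fun h => h.2, fun h => ⟨Nat.coprime_comm.1 hcop5, h⟩⟩
    have c2 : ∀ j : ℕ, Nat.Coprime (a + j * l) l ↔ Nat.Coprime a l := by
      intro j
      exact Nat.coprime_add_mul_right_left a l j
    by_cases h : Nat.Coprime a l
    · rw [if_pos h, if_pos (c1.2 h), hTl]
      congr 1
      refine Finset.sum_congr rfl fun j _ => ?_
      rw [if_pos ((c2 j).2 h)]
    · rw [if_neg h, if_neg (fun h' => h (c1.1 h'))]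
      rw [Finset.sum_eq_zero, add_zero]
      intro j _
      rw [if_neg (fun h' => h ((c2 j).1 h'))]
  rw [Finset.sum_congr rfl h1, Finset.sum_add_distrib,
    sum_perm l hcop5 (by omega) (fun a => if Nat.Coprime a l then f a else 0),
    sum_blocks l (fun b => if Nat.Coprime b l then g b else 0)]
  have h2 : ∀ b ∈ Finset.range (5 * l), (if Nat.Coprime b l then g b else 0) =
      (if Nat.Coprime b (5 * l) then g b else 0) +
        (if 5 ∣ b then (if Nat.Coprime b l then g b else 0) else 0) := by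
    intro b _
    have c1 : Nat.Coprime b (5 * l) ↔ ¬ 5 ∣ b ∧ Nat.Coprime b l := by
      have c0 : Nat.Coprime b 5 ↔ Nat.Coprime 5 b := Nat.coprime_comm
      rw [Nat.coprime_mul_iff_right, c0, Nat.Prime.coprime_iff_not_dvd (by norm_num)]
    by_cases h5 : 5 ∣ b <;> by_cases h : Nat.Coprime b l <;> simp [c1, h5, h]
  rw [Finset.sum_congr rfl h2, Finset.sum_add_distrib,
    sum_mult5 l (fun b => if Nat.Coprime b l then g b else 0)]
  have h3 : ∀ b ∈ Finset.range l, (if Nat.Coprime (5 * b) l then g (5 * b) else 0) =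
      (if Nat.Coprime b l then f b else 0) := by
    intro b _
    have c1 : Nat.Coprime (5 * b) l ↔ Nat.Coprime b l := by
      rw [Nat.coprime_mul_iff_left]
      exact ⟨fun h => h.2, fun h => ⟨Nat.coprime_comm.1 hcop5, h⟩⟩
    have c2 : g (5 * b) = f b := by
      have := hHom 5 (2 ^ (r + 1) * (b : ℤ)) l (by norm_num) (Or.inr hl0)
      rw [hg, hf]
      show G (2 ^ (r + 1) * ((5 * b : ℕ) : ℤ)) ((5 * l : ℕ) : ℤ) =
        G (2 ^ (r + 1) * (b : ℤ)) (l : ℤ)
      rw [← this]
      congr 1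
      push_cast
      ring
    by_cases h : Nat.Coprime b l
    · rw [if_pos h, if_pos (c1.2 h), c2]
    · rw [if_neg h, if_neg (fun h' => h (c1.1 h'))]
  rw [Finset.sum_congr rfl h3]
  have h4 : ∀ x y : ZMod 2, x = y + (x + y) := by decide
  exact h4 _ _

end Pool.Agent.Helper22.TT
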